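import Mathlib
import Pool.Agent.H.MP_020f70_lc.B

set_option autoImplicit false

namespace Pool.Agent.Results.MP_020f70_lc.No

open Relation

/-- A finite automaton; a rule `(p, some a, q)` is `pa → q`, a rule `(p, none, q)` is `p → q`. -/
structure FA where
  Q : Finset ℕ
  A : Finset ℕ
  R : Finset (ℕ × Option ℕ × ℕ)
  s : ℕ
  F : Finset ℕ
  s_mem : s ∈ Q
  F_sub : F ⊆ Q
  R_mem : ∀ r ∈ R, r.1 ∈ Q ∧ r.2.2 ∈ Q ∧ ∀ a ∈ r.2.1, a ∈ A

/-- A move on triples (state, unread input, record). -/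
def FA.move (M : FA) (c d : ℕ × List ℕ × List ℕ) : Prop :=
  ∃ r ∈ M.R, ∃ x α, c = (r.1, r.2.1.toList ++ x, α) ∧ d = (r.2.2, x, α ++ [r.1])

def FA.lang (M : FA) (C : Set (List ℕ)) : Set (List ℕ) :=
  {w | (∀ a ∈ w, a ∈ M.A) ∧ ∃ f ∈ M.F, ∃ α ∈ C, ReflTransGen M.move (M.s, w, []) (f, [], α)}

def SCFA (𝓛 : Set (Set (List ℕ))) : Set (Set (List ℕ)) :=
  {L | ∃ M : FA, ∃ C ∈ 𝓛, (∀ α ∈ C, ∀ q ∈ α, q ∈ M.Q) ∧ L = M.lang C}

/-- A phrase-structure grammar `(V, T, P, S)`. -/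
structure Grammar where
  V : Finset ℕ
  T : Finset ℕ
  P : Finset (List ℕ × List ℕ)
  S : ℕ
  T_sub : T ⊆ V
  S_mem : S ∈ V \ T
  lhs : ∀ r ∈ P, (∀ a ∈ r.1, a ∈ V) ∧ ∃ A ∈ r.1, A ∈ V \ T
  rhs : ∀ r ∈ P, ∀ a ∈ r.2, a ∈ V

def Grammar.step (G : Grammar) (s t : List ℕ) : Prop :=
  ∃ r ∈ G.P, ∃ u v, s = u ++ r.1 ++ v ∧ t = u ++ r.2 ++ v

def Grammar.lang (G : Grammar) : Set (List ℕ) :=
  {w | (∀ a ∈ w, a ∈ G.T) ∧ ReflTransGen G.step [G.S] w}

def CS : Set (Set (List ℕ)) :=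
  {L | ∃ G : Grammar, (∀ r ∈ G.P, r.1.length ≤ r.2.length) ∧ L = G.lang}

open Pool.Agent.H.MP_020f70_lc

theorem step_eq (G : Grammar) : G.step = Stp fun x y => (x, y) ∈ G.P := by
  funext s t
  simp [Grammar.step, Stp]

theorem cs_dec {L} (h : L ∈ CS) : ComputablePred fun w => w ∈ L := by
  obtain ⟨G, hG, rfl⟩ := h
  have h1 := dec_mono G.P.toList (fun r hr => hG r (Finset.mem_toList.1 hr)) [G.S]
  have h2 : PrimrecPred fun w : List ℕ => ∀ a ∈ w, a ∈ G.T.toList :=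
    Pool.Agent.Lib.helper21.PR.pred (by fun_prop)
  obtain ⟨_, h1⟩ := h1
  obtain ⟨_, h2⟩ := h2
  refine ComputablePred.computable_iff.2 ⟨_, Primrec.and.to_comp.comp h2.to_comp h1, ?_⟩
  funext w
  simp [Grammar.lang, step_eq]

def er (c : ℕ) (r : ℕ × Option ℕ × ℕ) : ℕ × Option ℕ × ℕ :=
  (r.1, r.2.1.filter (fun z => decide (z ≠ c)), r.2.2)

def FA.erase (M : FA) (c : ℕ) : FA :=
  { M with
    R := M.R.image (er c)
    R_mem := by
      intro r hr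
      obtain ⟨r, h, rfl⟩ := Finset.mem_image.1 hr
      exact ⟨(M.R_mem r h).1, (M.R_mem r h).2.1, fun a ha =>
        (M.R_mem r h).2.2 a (Option.mem_filter_iff.1 ha).1⟩ }

theorem flt (c : ℕ) (o : Option ℕ) : o.toList.filter (fun z => decide (z ≠ c)) =
    (o.filter fun z => decide (z ≠ c)).toList := by
  rcases o with _ | a
  · rfl
  · by_cases h : a = c <;> simp [Option.filter, h]

theorem erase_lang (M : FA) (c : ℕ) (C) (w : List ℕ) : w ∈ (M.erase c).lang C ↔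
    ∃ v ∈ M.lang C, v.filter (fun z => decide (z ≠ c)) = w := by
  constructor
  · rintro ⟨-, f, hf, α, hα, h⟩
    suffices ∀ d, ReflTransGen (M.erase c).move d (f, [], α) → ∃ v, (∀ a ∈ v, a ∈ M.A) ∧
        ReflTransGen M.move (d.1, v, d.2.2) (f, [], α) ∧
          v.filter (fun z => decide (z ≠ c)) = d.2.1 by
      obtain ⟨v, h1, h2, h3⟩ := this _ h
      exact ⟨v, ⟨h1, f, hf, α, hα, h2⟩, h3⟩
    intro d hd
    induction hd using ReflTransGen.head_induction_on with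
    | refl => exact ⟨[], by simp, .refl, rfl⟩
    | head h _ ih =>
      obtain ⟨_, hr', x, β, rfl, rfl⟩ := h
      obtain ⟨r, hr, rfl⟩ := Finset.mem_image.1 hr'
      obtain ⟨v, h1, h2, h3⟩ := ih
      refine ⟨r.2.1.toList ++ v, fun a ha => ?_, .head ⟨r, hr, v, β, rfl, rfl⟩ h2, ?_⟩
      · rcases List.mem_append.1 ha with ha | ha
        · exact (M.R_mem r hr).2.2 a (by simpa using ha)
        · exact h1 a ha
      · rw [List.filter_append, flt, h3]; rfl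
  · rintro ⟨v, ⟨h0, f, hf, α, hα, h⟩, rfl⟩
    refine ⟨fun a ha => h0 a (List.mem_of_mem_filter ha), f, hf, α, hα, ?_⟩
    refine ReflTransGen.lift (fun d : ℕ × List ℕ × List ℕ =>
      (d.1, d.2.1.filter (fun z => decide (z ≠ c)), d.2.2)) ?_ _ _ h
    rintro _ _ ⟨r, hr, x, β, rfl, rfl⟩
    exact ⟨er c r, Finset.mem_image_of_mem _ hr, _, β, by simp only [List.filter_append, flt]; rfl, rfl⟩

theorem result (𝓛 : Set (Set (List ℕ))) :
    SCFA 𝓛 ≠ CS ∧ SCFA 𝓛 ≠ {L | L \ {[]} ∈ CS} := by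
  obtain ⟨V, T, P, s, c, W, h1, h2, h3, hW, hW', hU⟩ := exists_gr
  let G : Grammar := ⟨V, T, P, s, h1, h2, fun r hr => ⟨(h3 r hr).1, (h3 r hr).2.2.1⟩,
    fun r hr => (h3 r hr).2.1⟩
  have hG : G.lang ∈ CS := ⟨G, fun r hr => (h3 r hr).2.2.2, rfl⟩
  have hne : G.lang \ {[]} = G.lang := by
    refine sdiff_eq_left.2 (Set.disjoint_singleton_right.2 fun h => ?_)
    have : ∀ w, ReflTransGen G.step [G.S] w → 1 ≤ w.length := by
      intro w hw
      induction hw with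
      | refl => simp
      | tail _ h ih =>
        obtain ⟨r, hr, u, v, rfl, rfl⟩ := h
        have := (h3 r hr).2.2.2
        simp at *; omega
    simpa using this _ h.2
  have key : G.lang ∈ SCFA 𝓛 → ∃ K ∈ SCFA 𝓛, ∀ K' ∈ CS, ¬ ∀ n, W n ∈ K' ↔ W n ∈ K := by
    rintro ⟨M, C, hC, hq, e⟩
    refine ⟨(M.erase c).lang C, ⟨M.erase c, C, hC, hq, rfl⟩, fun K' hK h => hU ?_⟩
    obtain ⟨_, hd⟩ := cs_dec hK
    refine ComputablePred.of_eq (p := fun n => W n ∈ K') ⟨_, hd.comp hW.to_comp⟩ fun n => ?_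
    rw [h, erase_lang, ← e]
    simp only [Grammar.lang, step_eq, Set.mem_ofPred_eq]
    rfl
  constructor
  · intro e
    obtain ⟨K, hK, h⟩ := key (e ▸ hG)
    exact h K (e ▸ hK) fun _ => Iff.rfl
  · intro e
    obtain ⟨K, hK, h⟩ := key (by rw [e, Set.mem_ofPred_eq, hne]; exact hG)
    rw [e] at hK
    exact h _ hK fun n => by simp [hW' n]

end Pool.Agent.Results.MP_020f70_lc.No
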